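import Mathlib

/-!
# MP_919dc2_an, Q1: periods of orbits inside a special alpha-limit set

We prove Q1: if a periodic orbit of period `3` of a continuous interval map lies in the special
`α`-limit set `sα(x)`, then for each `n ≥ 1` the set `sα(x)` contains a periodic orbit of
period `n` or a periodic orbit of period `2n`.
-/

namespace Pool.Agent.Results.MP_919dc2_an.PeriodNOrTwoN

open Set Filter Topology

/-- `s` is a backward orbit branch of `x` under `f`. -/
def IsBranch {X : Type*} (f : X → X) (x : X) (s : ℕ → X) : Prop :=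
  s 0 = x ∧ ∀ k, f (s (k + 1)) = s k

/-- The special `α`-limit set of `x`: the accumulation points (limits of subsequences) of the
backward orbit branches of `x`. -/
def salpha {X : Type*} [TopologicalSpace X] (f : X → X) (x : X) : Set X :=
  {y | ∃ s : ℕ → X, IsBranch f x s ∧
    ∃ φ : ℕ → ℕ, StrictMono φ ∧ Tendsto (fun j => s (φ j)) atTop (𝓝 y)}

/-- `S` contains a periodic orbit of (least) period `n` of `f`. -/
def ContainsCycle {X : Type*} (f : X → X) (S : Set X) (n : ℕ) : Prop :=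
  ∃ p : X, f^[n] p = p ∧ (∀ m, 1 ≤ m → m < n → f^[m] p ≠ p) ∧ ∀ i, i < n → f^[i] p ∈ S

section General

variable {X : Type*} [TopologicalSpace X]

/-- limit points of a backward orbit of an iterate lie in the special `α`-limit set -/
lemma mem_salpha_of_iterate {f : X → X} {x y : X} {m0 m : ℕ} (hm : 1 ≤ m) (w : ℕ → X)
    (h0 : f^[m0] (w 0) = x) (hw : ∀ j, f^[m] (w (j + 1)) = w j)
    {φ : ℕ → ℕ} (hφ : StrictMono φ) (hy : Tendsto (fun j => w (φ j)) atTop (𝓝 y)) :
    y ∈ salpha f x := by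
  have hwi : ∀ i j, f^[m * i] (w (j + i)) = w j := by
    intro i
    induction i with
    | zero => intro j; simp
    | succ i ih =>
      intro j
      have h1 : f^[m * (i + 1)] (w (j + (i + 1))) = f^[m * i] (f^[m] (w (j + i + 1))) := by
        rw [← Function.iterate_add_apply]
        ring_nf
      rw [h1, hw, ih]
  refine ⟨fun k => f^[m0 + (m - 1) * k] (w k), ⟨?_, ?_⟩, fun j => m0 + m * φ j, ?_, ?_⟩
  · simpa using h0
  · intro k
    change f (f^[m0 + (m - 1) * (k + 1)] (w (k + 1))) = f^[m0 + (m - 1) * k] (w k)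
    rw [← Function.iterate_succ_apply' f]
    have e : (m0 + (m - 1) * (k + 1)).succ = (m0 + (m - 1) * k) + m := by
      obtain ⟨m', rfl⟩ : ∃ m', m = m' + 1 := ⟨m - 1, by omega⟩
      simp only [Nat.add_sub_cancel, Nat.succ_eq_add_one]
      ring
    rw [e, Function.iterate_add_apply, hw]
  · intro i j hij
    have := hφ hij
    change m0 + m * φ i < m0 + m * φ j
    nlinarith
  · have e : (fun j => f^[m0 + (m - 1) * (m0 + m * φ j)] (w (m0 + m * φ j))) =
        fun j => w (φ j) := by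
      funext j
      obtain ⟨m', rfl⟩ : ∃ m', m = m' + 1 := ⟨m - 1, by omega⟩
      have h1 := hwi (m0 + m' * φ j) (φ j)
      have e1 : m0 + (m' + 1 - 1) * (m0 + (m' + 1) * φ j) = (m' + 1) * (m0 + m' * φ j) := by
        simp only [Nat.add_sub_cancel]
        ring
      have e2 : m0 + (m' + 1) * φ j = φ j + (m0 + m' * φ j) := by ring
      rw [e1, e2, h1]
    simpa only [e] using hy

lemma apply_mem_salpha {f : X → X} (hf : Continuous f) {x y : X} (hy : y ∈ salpha f x) :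
    f y ∈ salpha f x := by
  obtain ⟨s, hs, φ, hφ, hlim⟩ := hy
  refine ⟨s, hs, fun j => φ (j + 1) - 1, ?_, ?_⟩
  · intro i j hij
    have h1 : φ (i + 1) < φ (j + 1) := hφ (by omega)
    have h2 : i + 1 ≤ φ (i + 1) := hφ.id_le _
    change φ (i + 1) - 1 < φ (j + 1) - 1
    omega
  · have h1 : (fun j => s (φ (j + 1) - 1)) = fun j => f (s (φ (j + 1))) := by
      funext j
      have h2 : j + 1 ≤ φ (j + 1) := hφ.id_le _
      have h3 := hs.2 (φ (j + 1) - 1)
      rw [Nat.sub_add_cancel (by omega)] at h3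
      exact h3.symm
    rw [h1]
    have h2 : Tendsto (fun j => s (φ (j + 1))) atTop (𝓝 y) := hlim.comp (tendsto_add_atTop_nat 1)
    exact (hf.tendsto y).comp h2

lemma iterate_mem_salpha {f : X → X} (hf : Continuous f) {x y : X} (hy : y ∈ salpha f x)
    (i : ℕ) : f^[i] y ∈ salpha f x := by
  induction i with
  | zero => exact hy
  | succ i ih => rw [Function.iterate_succ_apply']; exact apply_mem_salpha hf ih

end General

section Order

variable {α : Type*} [ConditionallyCompleteLinearOrder α] [TopologicalSpace α] [OrderTopology α]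
  [DenselyOrdered α]

/-- `g` maps `[p,q]` onto `[r,s]`, endpoints to endpoints. -/
structure Ex {α β : Type*} [LE α] [LE β] (g : α → β) (p q : α) (r s : β) : Prop where
  le : p ≤ q
  maps : ∀ t, p ≤ t → t ≤ q → r ≤ g t ∧ g t ≤ s
  surj : ∀ y, r ≤ y → y ≤ s → ∃ t, p ≤ t ∧ t ≤ q ∧ g t = y
  ends : (g p = r ∧ g q = s) ∨ (g p = s ∧ g q = r)

lemma exists_exact_aux {β : Type*} [LinearOrder β] [TopologicalSpace β] [OrderClosedTopology β]
    {g : α → β} (hg : Continuous g) {y z : α} {r s : β} (hyz : y ≤ z) (hrs : r ≤ s)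
    (hy : g y = r) (hz : g z = s) :
    ∃ p q, y ≤ p ∧ q ≤ z ∧ Ex g p q r s := by
  -- `p` = last point of `[y,z]` with value `r`
  set A : Set α := Icc y z ∩ g ⁻¹' {r} with hA
  have hAc : IsCompact A := isCompact_Icc.inter_right (isClosed_singleton.preimage hg)
  have hAne : A.Nonempty := ⟨y, ⟨le_refl y, hyz⟩, hy⟩
  have hpA : sSup A ∈ A := hAc.sSup_mem hAne
  set p := sSup A with hp
  have hpmax : ∀ t ∈ A, t ≤ p := fun t ht => le_csSup hAc.bddAbove ht
  set B : Set α := Icc p z ∩ g ⁻¹' {s} with hB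
  have hBc : IsCompact B := isCompact_Icc.inter_right (isClosed_singleton.preimage hg)
  have hBne : B.Nonempty := ⟨z, ⟨hpA.1.2, le_refl z⟩, hz⟩
  have hqB : sInf B ∈ B := hBc.sInf_mem hBne
  set q := sInf B with hq
  have hqmin : ∀ t ∈ B, q ≤ t := fun t ht => csInf_le hBc.bddBelow ht
  have hpq : p ≤ q := hqB.1.1
  have hgp : g p = r := hpA.2
  have hgq : g q = s := hqB.2
  refine ⟨p, q, hpA.1.1, hqB.1.2, ⟨hpq, ?_, ?_, Or.inl ⟨hgp, hgq⟩⟩⟩
  · intro t ht1 ht2
    constructor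
    · by_contra hlt
      have hlt : g t < r := lt_of_not_ge hlt
      -- there is `t' ∈ [t,z]` with `g t' = r`
      obtain ⟨t', ht', hgt'⟩ := intermediate_value_Icc (f := g) (ht2.trans hqB.1.2)
        hg.continuousOn (show r ∈ Icc (g t) (g z) from ⟨hlt.le, by rw [hz]; exact hrs⟩)
      have h1 : t' ≤ p := hpmax t' ⟨⟨(hpA.1.1.trans ht1).trans ht'.1, ht'.2⟩, hgt'⟩
      have h2 : t = p := le_antisymm (ht'.1.trans h1) ht1
      rw [h2, hgp] at hlt
      exact lt_irrefl _ hlt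
    · by_contra hlt
      have hlt : s < g t := lt_of_not_ge hlt
      obtain ⟨t', ht', hgt'⟩ := intermediate_value_Icc (f := g) ht1
        hg.continuousOn (show s ∈ Icc (g p) (g t) from ⟨by rw [hgp]; exact hrs, hlt.le⟩)
      have h1 : q ≤ t' := hqmin t' ⟨⟨ht'.1, (ht'.2.trans ht2).trans hqB.1.2⟩, hgt'⟩
      have h2 : t = q := le_antisymm ht2 (h1.trans ht'.2)
      rw [h2, hgq] at hlt
      exact lt_irrefl _ hlt
  · intro v hv1 hv2
    obtain ⟨t, ht, hgt⟩ := intermediate_value_Icc (f := g) hpq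
        hg.continuousOn (show v ∈ Icc (g p) (g q) from ⟨by rw [hgp]; exact hv1, by rw [hgq]; exact hv2⟩)
    exact ⟨t, ht.1, ht.2, hgt⟩

lemma exists_exact_aux' {β : Type*} [LinearOrder β] [TopologicalSpace β] [OrderClosedTopology β]
    {g : α → β} (hg : Continuous g) {y z : α} {r s : β} (hyz : y ≤ z) (hrs : r ≤ s)
    (hy : g y = s) (hz : g z = r) :
    ∃ p q, y ≤ p ∧ q ≤ z ∧ Ex g p q r s := by
  obtain ⟨p, q, h1, h2, h3⟩ := exists_exact_aux (β := βᵒᵈ)
    (g := fun t => OrderDual.toDual (g t)) (y := y) (z := z) (r := OrderDual.toDual s)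
    (s := OrderDual.toDual r) (continuous_toDual.comp hg) hyz hrs
    (congrArg OrderDual.toDual hy) (congrArg OrderDual.toDual hz)
  refine ⟨p, q, h1, h2, h3.le, ?_, ?_, ?_⟩
  · intro t ht1 ht2
    obtain ⟨h4, h5⟩ := h3.maps t ht1 ht2
    exact ⟨h5, h4⟩
  · intro v hv1 hv2
    exact h3.surj (OrderDual.toDual v) hv2 hv1
  · rcases h3.ends with h | h
    · exact Or.inr h
    · exact Or.inl h

/-- Lemma A: if `g([p,q]) ⊇ [r,s]` then some subinterval is mapped exactly onto `[r,s]`. -/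
lemma exists_exact {g : α → α} (hg : Continuous g) {p q r s : α} (hrs : r ≤ s)
    (hr : ∃ t, p ≤ t ∧ t ≤ q ∧ g t = r) (hs : ∃ t, p ≤ t ∧ t ≤ q ∧ g t = s) :
    ∃ p' q', p ≤ p' ∧ q' ≤ q ∧ Ex g p' q' r s := by
  obtain ⟨y, hy1, hy2, hy⟩ := hr
  obtain ⟨z, hz1, hz2, hz⟩ := hs
  rcases le_total y z with h | h
  · obtain ⟨p', q', h1, h2, h3⟩ := exists_exact_aux hg h hrs hy hz
    exact ⟨p', q', hy1.trans h1, h2.trans hz2, h3⟩
  · obtain ⟨p', q', h1, h2, h3⟩ := exists_exact_aux' hg h hrs hz hy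
    exact ⟨p', q', hz1.trans h1, h2.trans hy2, h3⟩

/-- The engine: nested intervals with `g(K_{j+1}) = K_j`, endpoints to endpoints. -/
lemma engine {g : α → α} (hg : Continuous g) {p q p1 q1 : α} (hp : p ≤ p1) (hq : q1 ≤ q)
    (hE : Ex g p1 q1 p q) {u : α} (hu1 : p ≤ u) (hu2 : u ≤ q)
    (hu : ∀ S : Set α, (∀ t ∈ S, p1 ≤ t ∧ t ≤ q1) → (∀ t ∈ S, g t ∈ S) → u ∉ S) :
    ∃ l r : α, l ≤ r ∧ (∃ S : Set α, l ∈ S ∧ r ∈ S ∧ (∀ t ∈ S, p1 ≤ t ∧ t ≤ q1) ∧
      (∀ t ∈ S, g t ∈ S)) ∧ ((g l = l ∧ g r = r) ∨ (g l = r ∧ g r = l)) ∧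
      ∃ w : ℕ → α, w 0 = u ∧ (∀ j, g (w (j + 1)) = w j) ∧
        ∃ φ : ℕ → ℕ, StrictMono φ ∧ (Tendsto (fun j => w (φ j)) atTop (𝓝 l) ∨
          Tendsto (fun j => w (φ j)) atTop (𝓝 r)) := by
  -- the sequence of intervals
  let T : Type _ := {t : (α × α) × (α × α) //
    t.1.1 ≤ t.2.1 ∧ t.2.2 ≤ t.1.2 ∧ Ex g t.2.1 t.2.2 t.1.1 t.1.2}
  have step : ∀ t : T, ∃ t' : T, t'.1.1 = t.1.2 := by
    rintro ⟨⟨⟨a, b⟩, ⟨c, d⟩⟩, h1, h2, h3⟩
    simp only at h1 h2 h3
    obtain ⟨p', q', h4, h5, h6⟩ := exists_exact hg (p := c) (q := d) (r := c) (s := d) h3.le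
      (h3.surj c h1 (h3.le.trans h2)) (h3.surj d (h1.trans h3.le) h2)
    exact ⟨⟨((c, d), (p', q')), h4, h5, h6⟩, rfl⟩
  choose nxt hnxt using step
  let T0 : T := ⟨((p, q), (p1, q1)), hp, hq, hE⟩
  let τ : ℕ → T := fun j => nxt^[j] T0
  have hτ0 : τ 0 = T0 := rfl
  have hτs : ∀ j, τ (j + 1) = nxt (τ j) := fun j => Function.iterate_succ_apply' nxt j T0
  let L : ℕ → α := fun j => (τ j).1.1.1
  let R : ℕ → α := fun j => (τ j).1.1.2
  have hL2 : ∀ j, (τ j).1.2 = (L (j + 1), R (j + 1)) := by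
    intro j
    have := hnxt (τ j)
    rw [← hτs j] at this
    exact this.symm
  have hL0 : L 0 = p := rfl
  have hR0 : R 0 = q := rfl
  have hL1 : L 1 = p1 := by
    have := hL2 0
    have h2 : (τ 0).1.2 = (p1, q1) := rfl
    rw [h2] at this
    exact (congrArg Prod.fst this).symm
  have hR1 : R 1 = q1 := by
    have := hL2 0
    have h2 : (τ 0).1.2 = (p1, q1) := rfl
    rw [h2] at this
    exact (congrArg Prod.snd this).symm
  have hLs : ∀ j, L j ≤ L (j + 1) := by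
    intro j
    have h1 := (τ j).2.1
    rw [hL2 j] at h1
    exact h1
  have hRs : ∀ j, R (j + 1) ≤ R j := by
    intro j
    have h1 := (τ j).2.2.1
    rw [hL2 j] at h1
    exact h1
  have hEx : ∀ j, Ex g (L (j + 1)) (R (j + 1)) (L j) (R j) := by
    intro j
    have h1 := (τ j).2.2.2
    rw [hL2 j] at h1
    exact h1
  clear_value L R
  clear hL2 hτ0 hτs τ T0 hnxt nxt
  clear T
  have hLm : Monotone L := monotone_nat_of_le_succ hLs
  have hRm : Antitone R := antitone_nat_of_succ_le hRs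
  have hLR : ∀ j, L j ≤ R j := by
    intro j
    exact ((hLs j).trans (hEx j).le).trans (hRs j)
  have hLR' : ∀ i j, L i ≤ R j := by
    intro i j
    exact ((hLm (le_max_left i j)).trans (hLR _)).trans (hRm (le_max_right i j))
  have hLb : BddAbove (range L) := ⟨R 0, by rintro _ ⟨i, rfl⟩; exact hLR' i 0⟩
  have hRb : BddBelow (range R) := ⟨L 0, by rintro _ ⟨i, rfl⟩; exact hLR' 0 i⟩
  set l := ⨆ i, L i with hl
  set r := ⨅ i, R i with hr
  have hlt : Tendsto L atTop (𝓝 l) := tendsto_atTop_ciSup hLm hLb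
  have hrt : Tendsto R atTop (𝓝 r) := tendsto_atTop_ciInf hRm hRb
  have hLl : ∀ j, L j ≤ l := fun j => le_ciSup hLb j
  have hRr : ∀ j, r ≤ R j := fun j => ciInf_le hRb j
  have hlr : l ≤ r := ciSup_le fun i => le_ciInf fun j => hLR' i j
  have hlt1 : Tendsto (fun j => L (j + 1)) atTop (𝓝 l) := hlt.comp (tendsto_add_atTop_nat 1)
  have hrt1 : Tendsto (fun j => R (j + 1)) atTop (𝓝 r) := hrt.comp (tendsto_add_atTop_nat 1)
  -- endpoints
  have hends : (g l = l ∧ g r = r) ∨ (g l = r ∧ g r = l) := by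
    have key : ∀ {A B : ℕ → α} {a b : α}, Tendsto A atTop (𝓝 a) → Tendsto B atTop (𝓝 b) →
        (∃ᶠ j in atTop, A j = B j) → a = b := by
      intro A B a b hA hB hf
      by_contra hne
      obtain ⟨U, V, hU, hV, haU, hbV, hUV⟩ := t2_separation hne
      have h1 := hA.eventually (hU.mem_nhds haU)
      have h2 := hB.eventually (hV.mem_nhds hbV)
      obtain ⟨j, ⟨h3, h4⟩, h5⟩ := ((h1.and h2).and_frequently hf).exists
      exact (Set.disjoint_left.mp hUV h3) (h5 ▸ h4)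
    have hfr : ∃ᶠ j in atTop, (g (L (j + 1)) = L j ∧ g (R (j + 1)) = R j) ∨
        (g (L (j + 1)) = R j ∧ g (R (j + 1)) = L j) :=
      (Eventually.of_forall fun j => (hEx j).ends).frequently
    have hgl : Tendsto (fun j => g (L (j + 1))) atTop (𝓝 (g l)) := (hg.tendsto l).comp hlt1
    have hgr : Tendsto (fun j => g (R (j + 1))) atTop (𝓝 (g r)) := (hg.tendsto r).comp hrt1
    rcases frequently_or_distrib.mp hfr with h | h
    · exact Or.inl ⟨key hgl hlt (h.mono fun j hj => hj.1), key hgr hrt (h.mono fun j hj => hj.2)⟩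
    · exact Or.inr ⟨key hgl hrt (h.mono fun j hj => hj.1), key hgr hlt (h.mono fun j hj => hj.2)⟩
  -- the invariant set
  set S : Set α := {t | ∀ j, L j ≤ t ∧ t ≤ R j} with hS
  have hS1 : ∀ t ∈ S, p1 ≤ t ∧ t ≤ q1 := by
    intro t ht
    have := ht 1
    rwa [hL1, hR1] at this
  have hS2 : ∀ t ∈ S, g t ∈ S := fun t ht j => (hEx j).maps t (ht (j + 1)).1 (ht (j + 1)).2
  have huS : u ∉ S := hu S hS1 hS2
  -- the backward orbit
  have hstep : ∀ j (v : α), ∃ v' : α, (L j ≤ v ∧ v ≤ R j) →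
      (L (j + 1) ≤ v' ∧ v' ≤ R (j + 1) ∧ g v' = v) := by
    intro j v
    by_cases hv : L j ≤ v ∧ v ≤ R j
    · obtain ⟨t, h1, h2, h3⟩ := (hEx j).surj v hv.1 hv.2
      exact ⟨t, fun _ => ⟨h1, h2, h3⟩⟩
    · exact ⟨v, fun h => absurd h hv⟩
  choose pre hpre using hstep
  let w : ℕ → α := fun j => Nat.rec u (fun i v => pre i v) j
  have hw0 : w 0 = u := rfl
  have hws : ∀ j, w (j + 1) = pre j (w j) := fun j => rfl
  clear_value w
  have hwK : ∀ j, L j ≤ w j ∧ w j ≤ R j := by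
    intro j
    induction j with
    | zero => rw [hw0, hL0, hR0]; exact ⟨hu1, hu2⟩
    | succ j ih =>
      rw [hws]
      obtain ⟨h1, h2, -⟩ := hpre j (w j) ih
      exact ⟨h1, h2⟩
  have hwg : ∀ j, g (w (j + 1)) = w j := by
    intro j
    rw [hws]
    exact (hpre j (w j) (hwK j)).2.2
  have hwS : ∀ j, w j ∉ S := by
    intro j
    induction j with
    | zero => rw [hw0]; exact huS
    | succ j ih =>
      intro h
      exact ih (by rw [← hwg j]; exact hS2 _ h)
  have hSl : ∀ t, l ≤ t → t ≤ r → t ∈ S := fun t h1 h2 j => ⟨(hLl j).trans h1, h2.trans (hRr j)⟩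
  have hw2 : ∀ j, w j < l ∨ r < w j := by
    intro j
    by_contra h
    push Not at h
    exact hwS j (hSl _ h.1 h.2)
  refine ⟨l, r, hlr, ⟨S, hSl l le_rfl hlr, hSl r hlr le_rfl, hS1, hS2⟩, hends, w, hw0, hwg, ?_⟩
  have hfr : ∃ᶠ j in atTop, w j < l ∨ r < w j := (Eventually.of_forall hw2).frequently
  rcases frequently_or_distrib.mp hfr with h | h
  · obtain ⟨φ, hφ, h1⟩ := extraction_of_frequently_atTop h
    refine ⟨φ, hφ, Or.inl ?_⟩
    exact tendsto_of_tendsto_of_tendsto_of_le_of_le (hlt.comp hφ.tendsto_atTop)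
      tendsto_const_nhds (fun j => (hwK (φ j)).1) (fun j => (h1 j).le)
  · obtain ⟨φ, hφ, h1⟩ := extraction_of_frequently_atTop h
    refine ⟨φ, hφ, Or.inr ?_⟩
    exact tendsto_of_tendsto_of_tendsto_of_le_of_le tendsto_const_nhds
      (hrt.comp hφ.tendsto_atTop) (fun j => (h1 j).le) (fun j => (hwK (φ j)).2)

omit [TopologicalSpace α] [OrderTopology α] [DenselyOrdered α] in
lemma Ex.comp {f g : α → α} {p q r s v w : α} (h1 : Ex f p q r s) (h2 : Ex g r s v w) :
    Ex (fun t => g (f t)) p q v w := by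
  refine ⟨h1.le, ?_, ?_, ?_⟩
  · intro t ht1 ht2
    obtain ⟨h3, h4⟩ := h1.maps t ht1 ht2
    exact h2.maps _ h3 h4
  · intro y hy1 hy2
    obtain ⟨t, h3, h4, h5⟩ := h2.surj y hy1 hy2
    obtain ⟨t', h6, h7, h8⟩ := h1.surj t h3 h4
    exact ⟨t', h6, h7, by rw [h8, h5]⟩
  · rcases h1.ends with ⟨h3, h4⟩ | ⟨h3, h4⟩ <;> rcases h2.ends with ⟨h5, h6⟩ | ⟨h5, h6⟩
    · left; exact ⟨by rw [h3, h5], by rw [h4, h6]⟩
    · right; exact ⟨by rw [h3, h5], by rw [h4, h6]⟩
    · right; exact ⟨by rw [h3, h6], by rw [h4, h5]⟩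
    · left; exact ⟨by rw [h3, h6], by rw [h4, h5]⟩

/-- The intervals of the loop `I₂ → I₂ → ⋯ → I₂ → I₁`. -/
lemma chain {f : α → α} (hf : Continuous f) {a b c : α} (hab : a < b) (hbc : b < c)
    (fb : f b = c) (fc : f c = a) (m : ℕ) :
    ∃ p q, b ≤ p ∧ q ≤ c ∧ Ex (f^[m + 1]) p q a b ∧
      ∀ i, i ≤ m → ∀ t, p ≤ t → t ≤ q → b ≤ f^[i] t ∧ f^[i] t ≤ c := by
  have hcov : ∀ y, a ≤ y → y ≤ c → ∃ t, b ≤ t ∧ t ≤ c ∧ f t = y := by
    intro y h1 h2
    obtain ⟨t, ht, hgt⟩ := intermediate_value_Icc' (f := f) hbc.le hf.continuousOn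
      (show y ∈ Icc (f c) (f b) from ⟨by rw [fc]; exact h1, by rw [fb]; exact h2⟩)
    exact ⟨t, ht.1, ht.2, hgt⟩
  induction m with
  | zero =>
    obtain ⟨p, q, h1, h2, h3⟩ := exists_exact hf hab.le (hcov a le_rfl (hab.trans hbc).le)
      (hcov b hab.le hbc.le)
    refine ⟨p, q, h1, h2, by simpa using h3, ?_⟩
    intro i hi t ht1 ht2
    obtain rfl : i = 0 := by omega
    exact ⟨h1.trans ht1, ht2.trans h2⟩
  | succ m ih =>
    obtain ⟨p, q, h1, h2, h3, h4⟩ := ih
    obtain ⟨p', q', h5, h6, h7⟩ := exists_exact hf h3.le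
      (hcov p (hab.le.trans h1) (h3.le.trans h2)) (hcov q ((hab.le.trans h1).trans h3.le) h2)
    refine ⟨p', q', h5, h6, ?_, ?_⟩
    · exact h7.comp h3
    · intro i hi t ht1 ht2
      rcases i with _ | i
      · exact ⟨h5.trans ht1, ht2.trans h6⟩
      · rw [Function.iterate_succ_apply]
        obtain ⟨h8, h9⟩ := h7.maps t ht1 ht2
        exact h4 i (by omega) _ h8 h9

omit [ConditionallyCompleteLinearOrder α] [TopologicalSpace α] [OrderTopology α]
  [DenselyOrdered α] in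
lemma finish {f : α → α} {n : ℕ} {Sx : Set α} (hinv : ∀ y ∈ Sx, ∀ i, f^[i] y ∈ Sx)
    {S : Set α} (hper : ∀ z ∈ S, ∀ z' ∈ S, ∀ d, 1 ≤ d → d < n → f^[d] z ≠ z') {z z' : α}
    (hz : z ∈ S) (hz' : z' ∈ S) (h1 : f^[n] z = z') (h2 : f^[n] z' = z) (hzs : z ∈ Sx) :
    ContainsCycle f Sx n ∨ ContainsCycle f Sx (2 * n) := by
  by_cases h : z = z'
  · subst h
    exact Or.inl ⟨z, h1, fun m hm1 hm2 => hper z hz z hz m hm1 hm2, fun i _ => hinv z hzs i⟩
  · refine Or.inr ⟨z, ?_, ?_, fun i _ => hinv z hzs i⟩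
    · rw [two_mul, Function.iterate_add_apply, h1, h2]
    · intro m hm1 hm2
      rcases lt_trichotomy m n with h3 | h3 | h3
      · exact hper z hz z hz m hm1 h3
      · rw [h3, h1]; exact fun h' => h h'.symm
      · obtain ⟨d, rfl⟩ : ∃ d, m = d + n := ⟨m - n, by omega⟩
        rw [Function.iterate_add_apply, h1]
        exact hper z' hz' z hz d (by omega) (by omega)

/-- The main result, for one of the two orientations of the 3-cycle. -/
theorem main_of_orientation {f : α → α} (hf : Continuous f) {a b c : α} (hab : a < b)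
    (hbc : b < c) (fa : f a = b) (fb : f b = c) (fc : f c = a) {x : α}
    (hb : b ∈ salpha f x) {n : ℕ} (hn : 1 ≤ n) :
    ContainsCycle f (salpha f x) n ∨ ContainsCycle f (salpha f x) (2 * n) := by
  have hac : a < c := hab.trans hbc
  -- a point `u` of a branch in `[a,c]`
  obtain ⟨k, u, hku, hau, huc⟩ : ∃ k u, f^[k] u = x ∧ a ≤ u ∧ u ≤ c := by
    obtain ⟨s, hs, φ, hφ, hlim⟩ := hb
    have h1 : ∀ᶠ j in atTop, s (φ j) ∈ Ioo a c := hlim.eventually (Ioo_mem_nhds hab hbc)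
    obtain ⟨j, hj⟩ := h1.exists
    refine ⟨φ j, s (φ j), ?_, hj.1.le, hj.2.le⟩
    have h2 : ∀ i, f^[i] (s i) = s 0 := by
      intro i
      induction i with
      | zero => rfl
      | succ i ih => rw [Function.iterate_succ_apply, hs.2, ih]
    rw [h2, hs.1]
  have hcov1 : ∀ y, b ≤ y → y ≤ c → ∃ t, a ≤ t ∧ t ≤ b ∧ f t = y := by
    intro y h1 h2
    obtain ⟨t, ht, hgt⟩ := intermediate_value_Icc (f := f) hab.le hf.continuousOn
      (show y ∈ Icc (f a) (f b) from ⟨by rw [fa]; exact h1, by rw [fb]; exact h2⟩)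
    exact ⟨t, ht.1, ht.2, hgt⟩
  have hcov2 : ∀ y, a ≤ y → y ≤ c → ∃ t, b ≤ t ∧ t ≤ c ∧ f t = y := by
    intro y h1 h2
    obtain ⟨t, ht, hgt⟩ := intermediate_value_Icc' (f := f) hbc.le hf.continuousOn
      (show y ∈ Icc (f c) (f b) from ⟨by rw [fc]; exact h1, by rw [fb]; exact h2⟩)
    exact ⟨t, ht.1, ht.2, hgt⟩
  have hinv : ∀ y ∈ salpha f x, ∀ i, f^[i] y ∈ salpha f x :=
    fun y hy i => iterate_mem_salpha hf hy i
  -- it suffices to provide the data for the engine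
  suffices H : ∃ p q p1 q1 u0 : α, ∃ k0 : ℕ, p ≤ p1 ∧ q1 ≤ q ∧ Ex (f^[n]) p1 q1 p q ∧
      p ≤ u0 ∧ u0 ≤ q ∧ f^[k0] u0 = x ∧
      (∀ S : Set α, (∀ t ∈ S, p1 ≤ t ∧ t ≤ q1) → (∀ t ∈ S, f^[n] t ∈ S) → u0 ∉ S) ∧
      (∀ S : Set α, (∀ t ∈ S, p1 ≤ t ∧ t ≤ q1) → (∀ t ∈ S, f^[n] t ∈ S) →
        ∀ z ∈ S, ∀ z' ∈ S, ∀ d, 1 ≤ d → d < n → f^[d] z ≠ z') by
    obtain ⟨p, q, p1, q1, u0, k0, h1, h2, h3, h4, h5, h6, h7, h8⟩ := H
    obtain ⟨l, r, hlr, ⟨S, hlS, hrS, hS1, hS2⟩, hends, w, hw0, hwg, φ, hφ, hlim⟩ :=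
      engine (hf.iterate n) h1 h2 h3 h4 h5 h7
    have hper := h8 S hS1 hS2
    have h6' : f^[k0] (w 0) = x := by rw [hw0]; exact h6
    rcases hlim with hlim | hlim
    · have hls : l ∈ salpha f x := mem_salpha_of_iterate hn w h6' hwg hφ hlim
      rcases hends with ⟨h9, h10⟩ | ⟨h9, h10⟩
      · exact finish hinv hper hlS hlS h9 h9 hls
      · exact finish hinv hper hlS hrS h9 h10 hls
    · have hrs : r ∈ salpha f x := mem_salpha_of_iterate hn w h6' hwg hφ hlim
      rcases hends with ⟨h9, h10⟩ | ⟨h9, h10⟩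
      · exact finish hinv hper hrS hrS h10 h10 hrs
      · exact finish hinv hper hrS hlS h10 h9 hrs
  rcases Nat.lt_or_ge n 2 with hn2 | hn2
  · -- `n = 1`
    obtain rfl : n = 1 := by omega
    obtain ⟨p1, q1, h1, h2, h3⟩ := exists_exact hf hbc.le (hcov2 b hab.le hbc.le)
      (hcov2 c hac.le le_rfl)
    obtain ⟨w, hw1, hw2, hw3⟩ := hcov2 u hau huc
    obtain ⟨v, hv1, hv2, hv3⟩ := hcov1 w hw1 hw2
    obtain ⟨u0, hu1, hu2, hu3⟩ := hcov2 v hv1 (hv2.trans hbc.le)
    refine ⟨b, c, p1, q1, u0, k + 3, h1, h2, by simpa using h3, hu1, hu2, ?_, ?_, ?_⟩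
    · rw [Function.iterate_add_apply]
      change f^[k] (f (f (f u0))) = x
      rw [hu3, hv3, hw3, hku]
    · intro S hS1 hS2 hu0
      have hS2' : ∀ t ∈ S, f t ∈ S := hS2
      have hSb : ∀ t ∈ S, b ≤ t := fun t ht => h1.trans (hS1 t ht).1
      have h4 : v ∈ S := by rw [← hu3]; exact hS2' _ hu0
      have h5 : v = b := le_antisymm hv2 (hSb v h4)
      rw [h5] at h4
      have h6 : c ∈ S := by rw [← fb]; exact hS2' _ h4
      have h7 : a ∈ S := by rw [← fc]; exact hS2' _ h6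
      exact absurd (hSb a h7) (not_le.mpr hab)
    · intro S _ _ z _ z' _ d hd1 hd2
      omega
  · -- `n ≥ 2`
    obtain ⟨m, rfl⟩ : ∃ m, n = m + 2 := ⟨n - 2, by omega⟩
    obtain ⟨p, q, h1, h2, h3, h4⟩ := chain hf hab hbc fb fc m
    obtain ⟨p1, q1, h5, h6, h7⟩ := exists_exact hf h3.le
      (hcov1 p h1 (h3.le.trans h2)) (hcov1 q (h1.trans h3.le) h2)
    have hE : Ex (f^[m + 2]) p1 q1 a b := h7.comp h3
    have hI2 : ∀ t, p1 ≤ t → t ≤ q1 → ∀ d, 1 ≤ d → d < m + 2 → b ≤ f^[d] t := by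
      intro t ht1 ht2 d hd1 hd2
      obtain ⟨i, rfl⟩ : ∃ i, d = i + 1 := ⟨d - 1, by omega⟩
      rw [Function.iterate_succ_apply]
      obtain ⟨h8, h9⟩ := h7.maps t ht1 ht2
      exact (h4 i (by omega) _ h8 h9).1
    -- `b` is in no invariant subset
    have hbS : ∀ S : Set α, (∀ t ∈ S, p1 ≤ t ∧ t ≤ q1) → (∀ t ∈ S, f^[m + 2] t ∈ S) → b ∉ S := by
      intro S hS1 hS2 hbS
      rcases Nat.eq_zero_or_pos m with hm | hm
      · subst hm
        have h8 : a ∈ S := by
          have := hS2 b hbS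
          change f (f b) ∈ S at this
          rwa [fb, fc] at this
        have h9 : c ∈ S := by
          have := hS2 a h8
          change f (f a) ∈ S at this
          rwa [fa, fb] at this
        exact absurd ((hS1 c h9).2.trans h6) (not_le.mpr hbc)
      · have h8 := hI2 b (hS1 b hbS).1 (hS1 b hbS).2 2 (by omega) (by omega)
        change b ≤ f (f b) at h8
        rw [fb, fc] at h8
        exact absurd h8 (not_le.mpr hab)
    -- the backward orbit of `u` in `[b,c]`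
    have hback : ∀ j, ∃ v, b ≤ v ∧ v ≤ c ∧ f^[j + 1] v = u ∧ b ≤ f^[j] v := by
      intro j
      induction j with
      | zero =>
        obtain ⟨v, hv1, hv2, hv3⟩ := hcov2 u hau huc
        exact ⟨v, hv1, hv2, hv3, hv1⟩
      | succ j ih =>
        obtain ⟨v, hv1, hv2, hv3, hv4⟩ := ih
        obtain ⟨v', hv1', hv2', hv3'⟩ := hcov2 v (hab.le.trans hv1) hv2
        refine ⟨v', hv1', hv2', ?_, ?_⟩
        · rw [Function.iterate_succ_apply, hv3', hv3]
        · rw [Function.iterate_succ_apply, hv3']; exact hv4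
    obtain ⟨v, hv1, hv2, hv3, hv4⟩ := hback (m + 1)
    obtain ⟨u0, hu1, hu2, hu3⟩ := hcov1 v hv1 hv2
    refine ⟨a, b, p1, q1, u0, k + (m + 3), h5, h6, hE, hu1, hu2, ?_, ?_, ?_⟩
    · have e : f^[m + 3] u0 = u := by
        rw [Function.iterate_succ_apply, hu3]; exact hv3
      rw [Function.iterate_add_apply, e, hku]
    · intro S hS1 hS2 hu0
      have h8 : f^[m + 2] u0 ∈ S := hS2 _ hu0
      have h9 : b ≤ f^[m + 2] u0 := by
        rw [Function.iterate_succ_apply, hu3]; exact hv4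
      have h10 : f^[m + 2] u0 = b := le_antisymm ((hS1 _ h8).2.trans h6) h9
      rw [h10] at h8
      exact hbS S hS1 hS2 h8
    · intro S hS1 hS2 z hz z' hz' d hd1 hd2 he
      have h8 := hI2 z (hS1 z hz).1 (hS1 z hz).2 d hd1 hd2
      rw [he] at h8
      have h9 : z' = b := le_antisymm ((hS1 _ hz').2.trans h6) h8
      rw [h9] at hz'
      exact hbS S hS1 hS2 hz'

/-- The main result in a densely ordered, conditionally complete linear order. -/
theorem main {f : α → α} (hf : Continuous f) {x : α} (h3 : ContainsCycle f (salpha f x) 3)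
    {n : ℕ} (hn : 1 ≤ n) :
    ContainsCycle f (salpha f x) n ∨ ContainsCycle f (salpha f x) (2 * n) := by
  obtain ⟨p, hp3, hp, hmem⟩ := h3
  have e3 : f (f (f p)) = p := hp3
  have h1 : f p ≠ p := hp 1 le_rfl (by norm_num)
  have h2 : f (f p) ≠ p := hp 2 (by norm_num) (by norm_num)
  have h12 : f (f p) ≠ f p := by
    intro h
    apply h2
    have := congrArg f h
    rw [e3] at this
    exact this.symm
  have m0 : p ∈ salpha f x := hmem 0 (by norm_num)
  have m1 : f p ∈ salpha f x := hmem 1 (by norm_num)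
  have m2 : f (f p) ∈ salpha f x := hmem 2 (by norm_num)
  -- orientation-preserving case for `a < b < c`, `f a = b`, `f b = c`, `f c = a`
  have P : ∀ a : α, f a ∈ salpha f x → f (f (f a)) = a → a < f a → f a < f (f a) →
      ContainsCycle f (salpha f x) n ∨ ContainsCycle f (salpha f x) (2 * n) := by
    intro a hm ha h4 h5
    exact main_of_orientation hf h4 h5 rfl rfl ha hm hn
  have N : ∀ c : α, f c ∈ salpha f x → f (f (f c)) = c → f c < c → f (f c) < f c →
      ContainsCycle f (salpha f x) n ∨ ContainsCycle f (salpha f x) (2 * n) := by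
    intro c hm hc h4 h5
    exact main_of_orientation (α := αᵒᵈ) (f := f) hf (a := c) (b := f c) (c := f (f c))
      h4 h5 rfl rfl hc hm hn
  have e3' : f (f (f (f p))) = f p := by rw [e3]
  have e3'' : f (f (f (f (f p)))) = f (f p) := by rw [e3]
  rcases lt_or_gt_of_ne h1 with a1 | a1
  · -- f p < p
    rcases lt_or_gt_of_ne h12 with a2 | a2
    · -- f f p < f p < p
      exact N p m1 e3 a1 a2
    · -- f p < f f p
      rcases lt_or_gt_of_ne h2 with a3 | a3
      · -- f p < f f p < p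
        refine P (f p) m2 e3' a2 ?_
        rw [e3]; exact a3
      · -- f p < p < f f p
        refine N (f (f p)) (by rw [e3]; exact m0) e3'' ?_ ?_
        · rw [e3]; exact a3
        · rw [e3]; exact a1
  · -- p < f p
    rcases lt_or_gt_of_ne h12 with a2 | a2
    · -- f f p < f p
      rcases lt_or_gt_of_ne h2 with a3 | a3
      · -- f f p < p < f p
        refine P (f (f p)) (by rw [e3]; exact m0) e3'' ?_ ?_
        · rw [e3]; exact a3
        · rw [e3]; exact a1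
      · -- p < f f p < f p
        refine N (f p) m2 e3' a2 ?_
        rw [e3]; exact a3
    · exact P p m1 e3 a1 a2

end Order

/-- **Q1 of MP_919dc2_an holds.** -/
theorem result (f : unitInterval → unitInterval) (hf : Continuous f) (x : unitInterval)
    (h3 : ContainsCycle f (salpha f x) 3) (n : ℕ) (hn : 1 ≤ n) :
    ContainsCycle f (salpha f x) n ∨ ContainsCycle f (salpha f x) (2 * n) :=
  main hf h3 hn

end Pool.Agent.Results.MP_919dc2_an.PeriodNOrTwoN
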